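import Pool.Agent.H20.ER3.Lib

/-!
# MP_816b90_co: Operation C, row AM (no antiholes)
-/

set_option autoImplicit false

namespace Pool.Agent.H18.ER3

open Pool.Agent.H48.ER Pool.Agent.H52.ER2 Pool.Agent.H66.ER2 Pool.Agent.H20.ER3

variable {V : Type}

theorem ahi_rot {W : Type} {M : SimpleGraph W} {N : ℕ} {w : ℕ → W} (h : AHI M N w) (s : ℕ)
    (hs : s < N) : AHI M N (fun i => w (if i + s < N then i + s else i + s - N)) := by
  constructor
  · intro i j hi hj e
    have h1 := h.inj _ _ (by split_ifs <;> omega) (by split_ifs <;> omega) e
    split_ifs at h1 <;> omega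
  · intro i j hi hj hij
    have h1 := h.adj (if i + s < N then i + s else i + s - N)
      (if j + s < N then j + s else j + s - N) (by split_ifs <;> omega)
      (by split_ifs <;> omega) (by split_ifs <;> omega)
    rw [h1]
    split_ifs <;> omega

/-- the reflection which exchanges `0` and `1` -/
theorem ahi_ref {W : Type} {M : SimpleGraph W} {N : ℕ} {w : ℕ → W} (h : AHI M N w)
    (hN : 5 ≤ N) : AHI M N (fun i => w (if i ≤ 1 then 1 - i else N + 1 - i)) := by
  constructor
  · intro i j hi hj e
    have h1 := h.inj _ _ (by split_ifs <;> omega) (by split_ifs <;> omega) e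
    split_ifs at h1 <;> omega
  · intro i j hi hj hij
    have h1 := h.adj (if i ≤ 1 then 1 - i else N + 1 - i)
      (if j ≤ 1 then 1 - j else N + 1 - j) (by split_ifs <;> omega)
      (by split_ifs <;> omega) (by split_ifs <;> omega)
    rw [h1]
    split_ifs <;> omega

/-- the reflection which fixes `0` -/
theorem ahi_fix {W : Type} {M : SimpleGraph W} {N : ℕ} {w : ℕ → W} (h : AHI M N w)
    (hN : 5 ≤ N) : AHI M N (fun i => w (if i = 0 then 0 else N - i)) := by
  constructor
  · intro i j hi hj e
    have h1 := h.inj _ _ (by split_ifs <;> omega) (by split_ifs <;> omega) e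
    split_ifs at h1 <;> omega
  · intro i j hi hj hij
    obtain ⟨a, ha⟩ : ∃ a, a = if i = 0 then 0 else N - i := ⟨_, rfl⟩
    obtain ⟨b, hb⟩ : ∃ b, b = if j = 0 then 0 else N - j := ⟨_, rfl⟩
    rw [← ha, ← hb, h.adj a b (by split_ifs at ha <;> omega) (by split_ifs at hb <;> omega)
      (by split_ifs at ha hb <;> omega)]
    split_ifs at ha hb <;> omega

theorem rt_anti {N : ℕ} {w : ℕ → V ⊕ Set V} {σ : ℕ → ℕ} (hσ : ∀ i, i < N → σ i < N)
    (h : (rt {v | ∃ i, i < N ∧ w i = v}).Subsingleton) :
    (rt {v | ∃ i, i < N ∧ w (σ i) = v}).Subsingleton := by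
  refine h.anti (rt_mono ?_)
  rintro v ⟨i, hi, rfl⟩
  exact ⟨σ i, hσ i hi, rfl⟩

section

variable {G : SimpleGraph V} {R : Set V} {N : ℕ} {w : ℕ → V ⊕ Set V}

theorem not_inR (h : AHI (OC G R) N w) (hN : 5 ≤ N) (i : ℕ) (hi : i < N) : ¬ InR R (w i) := by
  rintro ⟨r, hr, e⟩
  have h1 := (h.adj i (if i + 2 < N then i + 2 else i + 2 - N) hi (by split_ifs <;> omega)
    (by split_ifs <;> omega)).2 (by split_ifs <;> omega)
  exact h1.1 r hr e

theorem to_mg (h : AHI (OC G R) N w) (hN : 5 ≤ N) : AHI (MG G R) N w := by
  constructor
  · exact h.inj
  · intro i j hi hj hij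
    rw [← h.adj i j hi hj hij]
    constructor
    · intro h1
      exact ⟨fun r hr e => not_inR h hN i hi ⟨r, hr, e⟩,
        fun r hr e => not_inR h hN j hj ⟨r, hr, e⟩, h1⟩
    · intro h1
      exact h1.2.2

theorem al_of (o : Prop) (h : AHI (OC G R) N w) (hN : 5 ≤ N)
    (ho : o → (rt {v | ∃ i, i < N ∧ w i = v}).Subsingleton) {Z : Set (V ⊕ Set V)}
    (hZ : ∀ z ∈ Z, ∃ i, i < N ∧ w i = z) : Al o G R Z := by
  refine ⟨?_, fun h1 => (ho h1).anti (rt_mono hZ)⟩
  intro F _ r hr hrZ
  obtain ⟨i, hi, e⟩ := hZ _ hrZ
  exact absurd ⟨r, hr, e⟩ (not_inR h hN i hi)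

theorem five {o : Prop} (hH : HMs o G R) (h : AHI (OC G R) 5 w)
    (ho : o → (rt {v | ∃ i, i < 5 ∧ w i = v}).Subsingleton) : False := by
  have hM := to_mg h (le_refl 5)
  obtain ⟨g, hg⟩ : ∃ g : ℕ → V ⊕ Set V, g = fun i => w ((2 * i) % 5) := ⟨_, rfl⟩
  have hlt : ∀ i, (2 * i) % 5 < 5 := fun i => Nat.mod_lt _ (by norm_num)
  have hip : IP (MG G R) 3 (w 0) (w 1) {v | ∃ i, i ≤ 3 ∧ g i = v} := by
    refine ⟨g, by rw [hg], by rw [hg], ?_, ?_, rfl⟩
    · intro i j hi hj e
      rw [hg] at e
      have h1 := hM.inj _ _ (hlt i) (hlt j) e
      omega
    · intro i j hi hj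
      by_cases hij : i = j
      · subst hij
        constructor
        · intro h1
          exact absurd h1 ((MG G R).loopless.irrefl _)
        · intro h1
          omega
      · have h1 := hM.adj _ _ (hlt i) (hlt j) (by omega)
        rw [hg]
        rw [h1]
        interval_cases i <;> interval_cases j <;> omega
  have h3 : ∀ z ∈ insert (w 3) {v | ∃ i, i ≤ 3 ∧ g i = v}, ∃ i, i < 5 ∧ w i = z := by
    rintro z (rfl | ⟨i, hi, rfl⟩)
    · exact ⟨3, by norm_num, rfl⟩
    · exact ⟨(2 * i) % 5, hlt i, by rw [hg]⟩
  have h4 := hH 3 (w 0) (w 1) (w 3) _ ⟨hip, by norm_num, ?_, ?_, ?_, ?_⟩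
    (al_of o h (le_refl 5) ho h3)
  · exact absurd h4 (by decide)
  · rintro ⟨i, hi, e⟩
    rw [hg] at e
    have h1 := hM.inj _ _ (hlt i) (by norm_num) e
    omega
  · exact (hM.adj 3 0 (by norm_num) (by norm_num) (by norm_num)).2 (by norm_num)
  · exact (hM.adj 3 1 (by norm_num) (by norm_num) (by norm_num)).2 (by norm_num)
  · rintro _ ⟨i, hi, rfl⟩ h1
    rw [hg] at h1 ⊢
    dsimp only at h1 ⊢
    by_cases hi3 : (2 * i) % 5 = 3
    · omega
    · have h2 := (hM.adj 3 _ (by norm_num) (hlt i) (Ne.symm hi3)).1 h1
      have h5 : i = 0 ∨ i = 3 := by
        interval_cases i <;> omega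
      rcases h5 with rfl | rfl
      · exact Or.inl rfl
      · exact Or.inr rfl

theorem six {o : Prop} (hP : PMs o G R) (h : AHI (OC G R) 6 w)
    (ho : o → (rt {v | ∃ i, i < 6 ∧ w i = v}).Subsingleton) : False := by
  have hM := to_mg h (by norm_num)
  obtain ⟨τ, hτ⟩ : ∃ τ : Fin 3 → ℕ → ℕ, τ = fun (i : Fin 3) k => (2 * (i : ℕ) + 3 * k) % 6 :=
    ⟨_, rfl⟩
  have hlt : ∀ i k, τ i k < 6 := fun i k => by
    rw [hτ]
    exact Nat.mod_lt _ (by norm_num)
  have hτ' : ∀ i k, τ i k = (2 * (i : ℕ) + 3 * k) % 6 := fun i k => by rw [hτ]
  refine hP (fun _ => 1) (fun i k => w (τ i k)) ⟨fun _ => le_refl 1, ?_, ?_⟩ ?_ (fun _ => odd_one)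
  · intro i j k l hk hl e
    have h1 := hM.inj _ _ (hlt i k) (hlt j l) e
    rw [hτ', hτ'] at h1
    have hi := i.isLt
    have hj := j.isLt
    have h2 : (i : ℕ) = j ∧ k = l := by
      interval_cases k <;> interval_cases l <;> omega
    exact ⟨Fin.ext h2.1, h2.2⟩
  · intro i j k l hk hl
    have hi := i.isLt
    have hj := j.isLt
    by_cases he : τ i k = τ j l
    · have h2 : (i : ℕ) = j ∧ k = l := by
        rw [hτ', hτ'] at he
        interval_cases k <;> interval_cases l <;> omega
      obtain ⟨h3, rfl⟩ := h2
      obtain rfl := Fin.ext h3
      constructor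
      · intro h1
        exact absurd h1 ((MG G R).loopless.irrefl _)
      · rintro (⟨_, h4⟩ | ⟨h4, _⟩)
        · omega
        · exact absurd rfl h4
    · rw [hM.adj _ _ (hlt i k) (hlt j l) he]
      have h5 : i = j ↔ (i : ℕ) = j := Fin.ext_iff
      rw [ne_eq, h5, hτ', hτ']
      rw [hτ', hτ'] at he
      interval_cases k <;> interval_cases l <;> omega
  · apply al_of o h (by norm_num) ho
    rintro z ⟨i, k, hk, rfl⟩
    exact ⟨τ i k, hlt i k, rfl⟩

/-- antiholes of `G` -/
theorem to_G (hAA : U_AA) (hG : NAH G) (h : AHI (OC G R) N w) (hN : 7 ≤ N) (v : ℕ → V)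
    (hf : ∀ i, i < N → (w i = Sum.inl (v i) ∨ v i ∈ R))
    (hinj : ∀ i j, i < N → j < N → v i = v j → i = j)
    (hadj : ∀ i j, i < N → j < N → i ≠ j → v i ∈ R → (G.Adj (v i) (v j) ↔
      ¬ (i + 1 = j ∨ j + 1 = i ∨ (i = 0 ∧ j + 1 = N) ∨ (j = 0 ∧ i + 1 = N)))) : False := by
  refine (hAA V G).1 hG N v (by omega) ⟨hinj, ?_⟩
  intro i j hi hj hij
  by_cases hiR : v i ∈ R
  · exact hadj i j hi hj hij hiR
  by_cases hjR : v j ∈ R
  · have h1 := hadj j i hj hi (Ne.symm hij) hjR
    rw [SimpleGraph.adj_comm, h1]
    omega
  · have h1 := (hf i hi).resolve_right hiR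
    have h2 := (hf j hj).resolve_right hjR
    have h3 := (to_mg h (by omega)).adj i j hi hj hij
    rw [h1, h2] at h3
    exact h3

end

theorem pf_AM (hAR : U_AR) (hAA : U_AA) : U_AM := by
  intro V _ o G R hcls hev hX hH hP
  have core : ∀ N, ∀ w : ℕ → V ⊕ Set V, 5 ≤ N → AHI (OC G R) N w →
      (o → (rt {v | ∃ i, i < N ∧ w i = v}).Subsingleton) → False := by
    intro N
    induction N using Nat.strong_induction_on with
    | _ N ih =>
    intro w hN h ho
    rcases (by omega : N = 5 ∨ N = 6 ∨ 7 ≤ N) with rfl | rfl | hN7
    · exact five hH h ho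
    · exact six hP h ho
    have hmin : ∀ (N' : ℕ) (w' : ℕ → V ⊕ Set V), 5 ≤ N' → N' < N → AHI (OC G R) N' w' →
        ¬ (o → (rt {v | ∃ i, i < N' ∧ w' i = v}).Subsingleton) :=
      fun N' w' h1 h2 h3 h4 => ih N' h2 w' h1 h3 h4
    -- the case of a root `w 0`
    have key : ∀ (w : ℕ → V ⊕ Set V) (F : Set V), AHI (OC G R) N w →
        (o → (rt {v | ∃ i, i < N ∧ w i = v}).Subsingleton) → w 0 = Sum.inr F →
        (∀ F', w (N - 1) ≠ Sum.inr F') → False := by
      intro w F h ho hF hlast
      have hM := to_mg h hN
      obtain ⟨hFR, f, hfF, hf⟩ := hAR V o G R F N w hcls.noh hev h hN7 ho hmin hF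
      have hnadj : ∀ i F', i < N → 0 < i → w i = Sum.inr F' → i = 1 := by
        intro i F' hi h0 hw
        by_contra h1
        have h2 : i + 1 ≠ N := by
          intro h3
          apply hlast F'
          rw [← hw]
          congr 1
          omega
        have h3 := (hM.adj 0 i (by omega) hi (by omega)).2 (by omega)
        rw [hF, hw] at h3
        exact mg_rr h3
      by_cases hw1 : ∃ F', w 1 = Sum.inr F'
      · obtain ⟨F', hF'⟩ := hw1
        have hno : ¬ o := by
          intro h1
          have h2 := (ho h1) (x := F) ⟨0, by omega, hF⟩ (y := F') ⟨1, by omega, hF'⟩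
          have h3 := hM.inj 0 1 (by omega) (by omega) (by rw [hF, hF', h2])
          omega
        -- the vertex for `w 1`
        obtain ⟨w', hw'⟩ : ∃ w' : ℕ → V ⊕ Set V,
          w' = fun i => w (if i ≤ 1 then 1 - i else N + 1 - i) := ⟨_, rfl⟩
        have h' : AHI (OC G R) N w' := by
          rw [hw']
          exact ahi_ref h hN
        obtain ⟨hFR', g, hgF, hg⟩ := hAR V o G R F' N w' hcls.noh hev h' hN7
          (fun h1 => absurd h1 hno) hmin (by rw [hw']; exact hF')
        have hvex : ∀ i, ∃ v : V, 2 ≤ i → i < N → w i = Sum.inl v := by
          intro i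
          rcases hwi : w i with v | F2
          · exact ⟨v, fun _ _ => rfl⟩
          · refine ⟨f, fun h1 h2 => ?_⟩
            have h3 := hnadj i F2 h2 (by omega) hwi
            omega
        choose v hv using hvex
        have hvR : ∀ i, 2 ≤ i → i < N → v i ∉ R := by
          intro i h1 h2 h3
          exact not_inR h hN i h2 ⟨v i, h3, hv i h1 h2⟩
        have hfv : ∀ i, 2 ≤ i → i < N → (G.Adj (v i) f ↔ i + 2 ≤ N) := by
          intro i h1 h2
          rw [hf i (v i) (by omega) h2 (hv i h1 h2)]
          omega
        have hgv : ∀ i, 2 ≤ i → i < N → (G.Adj (v i) g ↔ 3 ≤ i) := by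
          intro i h1 h2
          have h3 : w' (N + 1 - i) = Sum.inl (v i) := by
            rw [hw']
            dsimp only
            rw [if_neg (by omega), show N + 1 - (N + 1 - i) = i by omega]
            exact hv i h1 h2
          rw [hg (N + 1 - i) (v i) (by omega) (by omega) h3]
          omega
        have hfR : f ∈ R := hFR hfF
        have hgR : g ∈ R := hFR' hgF
        have hfg : f ≠ g := by
          rintro rfl
          have h1 := hfv (N - 1) (by omega) (by omega)
          have h2 := hgv (N - 1) (by omega) (by omega)
          rw [h1] at h2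
          omega
        have hvinj : ∀ i j, 2 ≤ i → 2 ≤ j → i < N → j < N → v i = v j → i = j := by
          intro i j h1 h2 h3 h4 h5
          exact hM.inj i j h3 h4 (by rw [hv i h1 h3, hv j h2 h4, h5])
        have hvadj : ∀ i j, 2 ≤ i → 2 ≤ j → i < N → j < N → i ≠ j →
            (G.Adj (v i) (v j) ↔ ¬ (i + 1 = j ∨ j + 1 = i)) := by
          intro i j h1 h2 h3 h4 h5
          have h6 := hM.adj i j h3 h4 h5
          rw [hv i h1 h3, hv j h2 h4] at h6
          rw [← mg_ll (G := G) (R := R), h6]
          omega
        by_cases hadj : G.Adj f g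
        · -- the path of the complement
          obtain ⟨k, hk⟩ : ∃ k : ℕ → V, k = fun i => if i = 0 then f else
            if i = N - 1 then g else v (N - i) := ⟨_, rfl⟩
          have k0 : k 0 = f := by rw [hk]; exact if_pos rfl
          have kN : k (N - 1) = g := by
            rw [hk]
            dsimp only
            rw [if_neg (by omega), if_pos rfl]
          have ki : ∀ i, 0 < i → i < N - 1 → k i = v (N - i) := by
            intro i h1 h2
            rw [hk]
            dsimp only
            rw [if_neg (by omega), if_neg (by omega)]
          have kcase : ∀ i, i ≤ N - 1 → i = 0 ∨ i = N - 1 ∨ (0 < i ∧ i < N - 1) := by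
            intro i hi
            omega
          have hip : IP Gᶜ (N - 1) f g {x | ∃ i, i ≤ N - 1 ∧ k i = x} := by
            refine ⟨k, k0, kN, ?_, ?_, rfl⟩
            · intro i j hi hj e
              rcases kcase i hi with rfl | rfl | ⟨h1, h2⟩ <;>
                rcases kcase j hj with rfl | rfl | ⟨h3, h4⟩
              · rfl
              · rw [k0, kN] at e
                exact absurd e hfg
              · rw [k0, ki j h3 h4] at e
                exact absurd (e ▸ hfR) (hvR _ (by omega) (by omega))
              · rw [k0, kN] at e
                exact absurd e.symm hfg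
              · rfl
              · rw [kN, ki j h3 h4] at e
                exact absurd (e ▸ hgR) (hvR _ (by omega) (by omega))
              · rw [k0, ki i h1 h2] at e
                exact absurd (e ▸ hfR) (hvR _ (by omega) (by omega))
              · rw [kN, ki i h1 h2] at e
                exact absurd (e ▸ hgR) (hvR _ (by omega) (by omega))
              · rw [ki i h1 h2, ki j h3 h4] at e
                have h5 := hvinj _ _ (by omega) (by omega) (by omega) (by omega) e
                omega
            · have hfk : ∀ j, 0 < j → j < N - 1 → (Gᶜ.Adj f (k j) ↔ j = 1) := by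
                intro j h1 h2
                rw [ki j h1 h2, SimpleGraph.compl_adj, SimpleGraph.adj_comm,
                  hfv _ (by omega) (by omega)]
                have h3 : f ≠ v (N - j) := fun e => hvR _ (by omega) (by omega) (e ▸ hfR)
                constructor
                · rintro ⟨_, h4⟩
                  omega
                · rintro rfl
                  exact ⟨h3, by omega⟩
              have hgk : ∀ j, 0 < j → j < N - 1 → (Gᶜ.Adj g (k j) ↔ j + 1 = N - 1) := by
                intro j h1 h2
                rw [ki j h1 h2, SimpleGraph.compl_adj, SimpleGraph.adj_comm,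
                  hgv _ (by omega) (by omega)]
                have h3 : g ≠ v (N - j) := fun e => hvR _ (by omega) (by omega) (e ▸ hgR)
                constructor
                · rintro ⟨_, h4⟩
                  omega
                · intro h4
                  exact ⟨h3, by omega⟩
              intro i j hi hj
              rcases kcase i hi with rfl | rfl | ⟨h1, h2⟩ <;>
                rcases kcase j hj with rfl | rfl | ⟨h3, h4⟩
              · constructor
                · intro h5
                  exact absurd h5 (Gᶜ.loopless.irrefl _)
                · intro h5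
                  omega
              · rw [k0, kN]
                constructor
                · intro h5
                  exact absurd hadj h5.2
                · intro h5
                  omega
              · rw [k0, hfk j h3 h4]
                omega
              · rw [k0, kN]
                constructor
                · intro h5
                  exact absurd hadj.symm h5.2
                · intro h5
                  omega
              · constructor
                · intro h5
                  exact absurd h5 (Gᶜ.loopless.irrefl _)
                · intro h5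
                  omega
              · rw [kN, hgk j h3 h4]
                omega
              · rw [k0, SimpleGraph.adj_comm, hfk i h1 h2]
                omega
              · rw [kN, SimpleGraph.adj_comm, hgk i h1 h2]
                omega
              · rw [ki i h1 h2, ki j h3 h4]
                by_cases hij : i = j
                · subst hij
                  constructor
                  · intro h5
                    exact absurd h5 (Gᶜ.loopless.irrefl _)
                  · intro h5
                    omega
                · rw [SimpleGraph.compl_adj, hvadj _ _ (by omega) (by omega) (by omega)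
                    (by omega) (by omega)]
                  have h5 : v (N - i) ≠ v (N - j) := fun e => by
                    have h6 := hvinj _ _ (by omega) (by omega) (by omega) (by omega) e
                    omega
                  constructor
                  · rintro ⟨_, h6⟩
                    omega
                  · intro h6
                    exact ⟨h5, by omega⟩
          apply hX hno (N - 1) f g _ hip (by omega) hfR hgR
          rintro _ ⟨i, hi, rfl⟩
          rcases kcase i hi with rfl | rfl | ⟨h1, h2⟩
          · exact Or.inl k0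
          · exact Or.inr (Or.inl kN)
          · right
            right
            rw [ki i h1 h2]
            refine ⟨hvR _ (by omega) (by omega), ?_⟩
            by_cases h3 : N - i + 2 ≤ N
            · exact ⟨f, hfR, (hfv _ (by omega) (by omega)).2 h3⟩
            · exact ⟨g, hgR, (hgv _ (by omega) (by omega)).2 (by omega)⟩
        · -- an antihole of `G`
          obtain ⟨v', hv'⟩ : ∃ v' : ℕ → V, v' = fun i => if i = 0 then f else
            if i = 1 then g else v i := ⟨_, rfl⟩
          have v0 : v' 0 = f := by rw [hv']; exact if_pos rfl
          have v1 : v' 1 = g := by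
            rw [hv']
            dsimp only
            rw [if_neg (by omega), if_pos rfl]
          have vi : ∀ i, 2 ≤ i → v' i = v i := by
            intro i h1
            rw [hv']
            dsimp only
            rw [if_neg (by omega), if_neg (by omega)]
          have vcase : ∀ i, i = 0 ∨ i = 1 ∨ 2 ≤ i := by
            intro i
            omega
          refine to_G hAA hcls.nah h hN7 v' ?_ ?_ ?_
          · intro i hi
            rcases vcase i with rfl | rfl | h1
            · rw [v0]; exact Or.inr hfR
            · rw [v1]; exact Or.inr hgR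
            · rw [vi i h1]; exact Or.inl (hv i h1 hi)
          · intro i j hi hj e
            rcases vcase i with rfl | rfl | h1 <;> rcases vcase j with rfl | rfl | h2
            · rfl
            · rw [v0, v1] at e
              exact absurd e hfg
            · rw [v0, vi j h2] at e
              exact absurd (e ▸ hfR) (hvR _ h2 hj)
            · rw [v0, v1] at e
              exact absurd e.symm hfg
            · rfl
            · rw [v1, vi j h2] at e
              exact absurd (e ▸ hgR) (hvR _ h2 hj)
            · rw [v0, vi i h1] at e
              exact absurd (e ▸ hfR) (hvR _ h1 hi)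
            · rw [v1, vi i h1] at e
              exact absurd (e ▸ hgR) (hvR _ h1 hi)
            · rw [vi i h1, vi j h2] at e
              exact hvinj i j h1 h2 hi hj e
          · intro i j hi hj hij hR
            rcases vcase i with rfl | rfl | h1
            · rcases vcase j with rfl | rfl | h2
              · exact absurd rfl hij
              · rw [v0, v1]
                constructor
                · intro h5
                  exact absurd h5 hadj
                · intro h5
                  omega
              · rw [v0, vi j h2, SimpleGraph.adj_comm, hfv j h2 hj]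
                omega
            · rcases vcase j with rfl | rfl | h2
              · rw [v0, v1]
                constructor
                · intro h5
                  exact absurd h5.symm hadj
                · intro h5
                  omega
              · exact absurd rfl hij
              · rw [v1, vi j h2, SimpleGraph.adj_comm, hgv j h2 hj]
                omega
            · rw [vi i h1] at hR
              exact absurd hR (hvR i h1 hi)
      · push Not at hw1
        have hvex : ∀ i, ∃ v : V, 1 ≤ i → i < N → w i = Sum.inl v := by
          intro i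
          rcases hwi : w i with v | F2
          · exact ⟨v, fun _ _ => rfl⟩
          · refine ⟨f, fun h1 h2 => ?_⟩
            have h3 := hnadj i F2 h2 (by omega) hwi
            subst h3
            exact absurd hwi (hw1 F2)
        choose v hv using hvex
        have hvR : ∀ i, 1 ≤ i → i < N → v i ∉ R := by
          intro i h1 h2 h3
          exact not_inR h hN i h2 ⟨v i, h3, hv i h1 h2⟩
        have hfR : f ∈ R := hFR hfF
        obtain ⟨v', hv'⟩ : ∃ v' : ℕ → V, v' = fun i => if i = 0 then f else v i := ⟨_, rfl⟩
        have v0 : v' 0 = f := by rw [hv']; exact if_pos rfl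
        have vi : ∀ i, 1 ≤ i → v' i = v i := by
          intro i h1
          rw [hv']
          dsimp only
          rw [if_neg (by omega)]
        have vcase : ∀ i, i = 0 ∨ 1 ≤ i := by
          intro i
          omega
        refine to_G hAA hcls.nah h hN7 v' ?_ ?_ ?_
        · intro i hi
          rcases vcase i with rfl | h1
          · rw [v0]; exact Or.inr hfR
          · rw [vi i h1]; exact Or.inl (hv i h1 hi)
        · intro i j hi hj e
          rcases vcase i with rfl | h1 <;> rcases vcase j with rfl | h2
          · rfl
          · rw [v0, vi j h2] at e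
            exact absurd (e ▸ hfR) (hvR _ h2 hj)
          · rw [v0, vi i h1] at e
            exact absurd (e ▸ hfR) (hvR _ h1 hi)
          · rw [vi i h1, vi j h2] at e
            exact hM.inj i j hi hj (by rw [hv i h1 hi, hv j h2 hj, e])
        · intro i j hi hj hij hR
          rcases vcase i with rfl | h1
          · rcases vcase j with rfl | h2
            · exact absurd rfl hij
            · rw [v0, vi j h2, SimpleGraph.adj_comm, hf j (v j) (by omega) hj (hv j h2 hj)]
              omega
          · rw [vi i h1] at hR
            exact absurd hR (hvR i h1 hi)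
    -- a root
    by_cases hroot : ∃ i F, i < N ∧ w i = Sum.inr F
    · obtain ⟨s, F, hs, hF⟩ := hroot
      obtain ⟨w1, hw1⟩ : ∃ w1 : ℕ → V ⊕ Set V,
        w1 = fun i => w (if i + s < N then i + s else i + s - N) := ⟨_, rfl⟩
      have h1 : AHI (OC G R) N w1 := by
        rw [hw1]
        exact ahi_rot h s hs
      have ho1 : o → (rt {v | ∃ i, i < N ∧ w1 i = v}).Subsingleton := by
        intro h2
        rw [hw1]
        exact rt_anti (σ := fun i => if i + s < N then i + s else i + s - N) (fun i hi => by
          split_ifs <;> omega) (ho h2)
      have hF1 : w1 0 = Sum.inr F := by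
        rw [hw1]
        dsimp only
        rw [if_pos (by omega), Nat.zero_add]
        exact hF
      by_cases hlast : ∃ F', w1 (N - 1) = Sum.inr F'
      · obtain ⟨F', hF'⟩ := hlast
        obtain ⟨w2, hw2⟩ : ∃ w2 : ℕ → V ⊕ Set V,
          w2 = fun i => w1 (if i = 0 then 0 else N - i) := ⟨_, rfl⟩
        have h2 : AHI (OC G R) N w2 := by
          rw [hw2]
          exact ahi_fix h1 hN
        have ho2 : o → (rt {v | ∃ i, i < N ∧ w2 i = v}).Subsingleton := by
          intro h3
          rw [hw2]
          exact rt_anti (σ := fun i => if i = 0 then 0 else N - i) (fun i hi => by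
            split_ifs <;> omega) (ho1 h3)
        refine key w2 F h2 ho2 (by rw [hw2]; exact hF1) (fun F2 hF2 => ?_)
        have h3 : w2 1 = Sum.inr F' := by
          rw [hw2]
          exact hF'
        have h4 := ((to_mg h2 hN).adj 1 (N - 1) (by omega) (by omega) (by omega)).2 (by omega)
        rw [h3, hF2] at h4
        exact mg_rr h4
      · push Not at hlast
        exact key w1 F h1 ho1 hF1 hlast
    · push Not at hroot
      have hvex : ∀ i, ∃ v : V, i < N → w i = Sum.inl v := by
        intro i
        rcases hwi : w i with v | F2
        · exact ⟨v, fun _ => rfl⟩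
        · rcases hw0 : w 0 with v | F3
          · exact ⟨v, fun h2 => absurd hwi (hroot i F2 h2)⟩
          · exact absurd hw0 (hroot 0 F3 (by omega))
      choose v hv using hvex
      refine to_G hAA hcls.nah h hN7 v (fun i hi => Or.inl (hv i hi)) ?_ ?_
      · intro i j hi hj e
        exact h.inj i j hi hj (by rw [hv i hi, hv j hj, e])
      · intro i j hi hj hij hR
        exact absurd ⟨v i, hR, hv i hi⟩ (not_inR h hN i hi)
  intro N w hN h ho
  exact core N w hN h ho

end Pool.Agent.H18.ER3
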